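import Pool.Agent.T6.H49.BZ.Mom

/-!
# Moments of the Barnes multiple zeta-function: weights with algebraic ratios

The growth exponent of the mean square is determined for all `r`, `a > 0`, all weights whose ratios are
algebraic numbers and all `σ ≥ 1/2`: for `β ≥ 1` the bound `∫_1^T |ζ_r(σ + it; a, w)|² dt = O(T^(β+ε))`
holds for all `ε > 0` if and only if `2 (|S| - σ) ≤ β dim_ℚ span {w_i : i ∈ S}` for all nonempty sets `S`
of indices; for `β ≤ 2` this means `2 (r - σ) ≤ β d`. So the exponent is `max(1, 2(r-σ)/d)` for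
`σ ≥ r - d`, and the bound of the question holds for `k = 1` and these weights exactly for
`σ ≥ r - d/2`. For all weights, the condition is necessary (for the `2k`-th moment with
`1 + (β-1)/k` in place of `β`), and a bound `O(T^(β+ε))` for the mean square on the line `σ₁ > 1/2` implies
the same bound for the `2k`-th moment for `σ ≥ r - (r-σ₁)/k`. Hence for weights with algebraic ratios the
bound of the question holds for all `k` if `σ ≥ r - d/(2k)`.

Proof idea. By the criterion of `ExplicitCriterion`, the mean square bound is equivalent to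
`∏_{j=1}^r ‖w_{π(j)} y‖^(e_j) ≥ c y^(-β-ε)` for a permutation `π = π_y`, where
`e_j = min(2, max(0, 2j - 2σ - β))`. (a) Let `π` order the distances increasingly, and let `B` be the set of
the indices `j` for which `w_{π(j)}` is not in the span of its predecessors. Summation by parts, the
dimension condition for the sets `{π(1), …, π(j)}` and `∑_{i ≤ j} e_i = max(0, 2j - 2σ - β)` show that the
product is at least `∏_{j ∈ B, j ≠ 1} ‖w_{π(j)} y‖^β`. For weights with algebraic ratios the last product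
(without the exponent) is at least `c y^(-1-ε)`: this is Schmidt's theorem for real `y`, which follows
from the subspace theorem, applied to the forms `x_1` and `w_{π(1)} x_j - w_{π(j)} x_1`. (b) Conversely,
Dirichlet's theorem gives for every `Q` a real `y` with `1 ≤ y ≤ C Q^(m-1)` and `‖w_i y‖ ≤ C/Q` for all
`i ∈ S`, where `m` is the dimension for `S`. (c) The higher moments are bounded by a convexity argument
of the kind of Gabriel's between the line `σ₁ - ρ` and a line to the right of `r`; the mean square on the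
first line is `O(T^(β+2ρ+ε))` by the criterion.
-/

set_option autoImplicit false

open Filter Topology Asymptotics MeasureTheory

namespace Pool.Agent.Results.MP_047497_nt.AlgebraicWeights

/-- The Dirichlet series `∑ (a + m₁ w₁ + ⋯ + m_r w_r)^{-s}` over `m ∈ ℕ^r` (with `0 ∈ ℕ`). -/
noncomputable def barnesSeries (r : ℕ) (a : ℝ) (w : Fin r → ℝ) (s : ℂ) : ℂ :=
  ∑' m : Fin r → ℕ, ((a + ∑ i, (m i : ℝ) * w i : ℝ) : ℂ) ^ (-s)

/-- `Z` is the Barnes multiple zeta-function `ζ_r(·; a, w)`: it is holomorphic on the complex plane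
except for possible simple poles at `1, …, r`, and for `Re s > r` it is given by the (summable)
Dirichlet series. -/
structure IsBarnesZeta (r : ℕ) (a : ℝ) (w : Fin r → ℝ) (Z : ℂ → ℂ) : Prop where
  holomorphic : ∀ s : ℂ, (∀ j : ℕ, 1 ≤ j → j ≤ r → s ≠ j) → DifferentiableAt ℂ Z s
  simple_pole : ∀ j : ℕ, 1 ≤ j → j ≤ r →
    ∃ c : ℂ, Tendsto (fun s : ℂ => (s - j) * Z s) (𝓝[≠] (j : ℂ)) (𝓝 c)
  summable : ∀ s : ℂ, (r : ℝ) < s.re →
    Summable fun m : Fin r → ℕ => ((a + ∑ i, (m i : ℝ) * w i : ℝ) : ℂ) ^ (-s)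
  series : ∀ s : ℂ, (r : ℝ) < s.re → Z s = barnesSeries r a w s

/-- The dimension `d` of the `ℚ`-vector space spanned by the weights. -/
noncomputable def weightDim (r : ℕ) (w : Fin r → ℝ) : ℕ :=
  Module.finrank ℚ (Submodule.span ℚ (Set.range w))

/-- The dimension of the `ℚ`-vector space spanned by the weights `w_i` with `i ∈ S`. -/
noncomputable def subDim (r : ℕ) (w : Fin r → ℝ) (S : Finset (Fin r)) : ℕ :=
  Module.finrank ℚ (Submodule.span ℚ (w '' (S : Set (Fin r))))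

/-- The moment `∫_1^T |Z(σ + i t)|^{2k} dt`. -/
noncomputable def moment (Z : ℂ → ℂ) (k : ℕ) (σ T : ℝ) : ℝ :=
  ∫ t in (1 : ℝ)..T, ‖Z (σ + t * Complex.I)‖ ^ (2 * k)

/-- The bound `I_k(σ, T) = O(T^(β+ε))` for every `ε > 0`. The question is about `β = 1`. -/
def MomentBound (Z : ℂ → ℂ) (k : ℕ) (σ β : ℝ) : Prop :=
  ∀ ε : ℝ, 0 < ε → (fun T : ℝ => moment Z k σ T) =O[atTop] fun T : ℝ => T ^ (β + ε)

theorem exists_zeta (r : ℕ) (a : ℝ) (w : Fin r → ℝ) (ha : 0 < a) (hw : ∀ i, 0 < w i) :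
    ∃ Z : ℂ → ℂ, IsBarnesZeta r a w Z := by
  obtain ⟨c, hc⟩ := Pool.Agent.H131R5.BZ.exists_taylor a hw
  refine ⟨Pool.Agent.H131R5.BZ.FF a w c, ?_, ?_, ?_, ?_⟩
  · exact fun s hs => Pool.Agent.H131R5.BZ.FF_diff ha hw hc hs
  · exact fun j h1 h2 => Pool.Agent.Y930.Bz.FF_pole ha hw hc j h1 h2
  · exact fun s hs => (Pool.Agent.H131R5.BZ.FF_series ha hw hc hs).summable
  · exact fun s hs => (Pool.Agent.H131R5.BZ.FF_series ha hw hc hs).tsum_eq.symm

theorem dim_le (r : ℕ) (w : Fin r → ℝ) : weightDim r w ≤ r := by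
  unfold weightDim
  have h := finrank_range_le_card (R := ℚ) (M := ℝ) w
  rw [Fintype.card_fin] at h
  exact h

theorem subDim_univ (r : ℕ) (w : Fin r → ℝ) : subDim r w Finset.univ = weightDim r w := by
  unfold subDim weightDim
  rw [Finset.coe_univ, Set.image_univ]

theorem dim_le_subDim (r : ℕ) (w : Fin r → ℝ) (S : Finset (Fin r)) :
    weightDim r w + S.card ≤ subDim r w S + r := by
  classical
  have h1 : Submodule.span ℚ (Set.range w) =
      Submodule.span ℚ (w '' (S : Set (Fin r))) ⊔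
        Submodule.span ℚ ((Sᶜ.image w : Finset ℝ) : Set ℝ) := by
    rw [← Submodule.span_union, Finset.coe_image, ← Set.image_union, Finset.coe_compl,
      Set.union_compl_self, Set.image_univ]
  have hf1 : Module.Finite ℚ (Submodule.span ℚ (w '' (S : Set (Fin r)))) :=
    FiniteDimensional.span_of_finite ℚ (Set.toFinite _)
  have hf2 : Module.Finite ℚ (Submodule.span ℚ ((Sᶜ.image w : Finset ℝ) : Set ℝ)) :=
    FiniteDimensional.span_of_finite ℚ (Set.toFinite _)
  have h2 := Submodule.finrank_add_le_finrank_add_finrank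
    (Submodule.span ℚ (w '' (S : Set (Fin r))))
    (Submodule.span ℚ ((Sᶜ.image w : Finset ℝ) : Set ℝ))
  rw [← h1] at h2
  have h3 := finrank_span_finset_le_card (R := ℚ) (Sᶜ.image w)
  have h4 : (Sᶜ.image w).card ≤ Sᶜ.card := Finset.card_image_le
  have h5 : Sᶜ.card + S.card = r := by
    rw [Finset.card_compl, Fintype.card_fin]
    have := Finset.card_le_univ S
    rw [Fintype.card_fin] at this
    omega
  have h6 : (↑(Finset.image w Sᶜ) : Set ℝ).finrank ℚ =
      Module.finrank ℚ (Submodule.span ℚ ((Sᶜ.image w : Finset ℝ) : Set ℝ)) := rfl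
  unfold weightDim subDim
  omega

/-- (0) The Barnes multiple zeta-function exists (as defined above) for all `r`, `a > 0` and positive
weights. Let now `Z` be the Barnes multiple zeta-function for some `r`, `a > 0` and positive weights
`w`.
(1) If `k ≥ 1`, `σ ≥ 1/2`, `β ≥ 1` and `I_k(σ, T) = O(T^(β+ε))` for all `ε > 0`, then
`2 (|S| - σ) ≤ (1 + (β-1)/k) dim span {w_i : i ∈ S}` for all nonempty `S`.
(2) If `k ≥ 1`, `σ₁ > 1/2`, `β ≥ 1` and `I_1(σ₁, T) = O(T^(β+ε))` for all `ε > 0`, then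
`I_k(σ, T) = O(T^(β+ε))` for all `ε > 0` and `σ ≥ r - (r-σ₁)/k`.
(3) If all the ratios `w_i / w_j` are algebraic, then
(a) for `σ ≥ 1/2` and `β ≥ 1` the bound `I_1(σ, T) = O(T^(β+ε))` for all `ε > 0` holds if and only if
`2 (|S| - σ) ≤ β dim span {w_i : i ∈ S}` for all nonempty `S`;
(b) if `r ≥ 1`, `σ ≥ 1/2` and `1 ≤ β ≤ 2`, it holds if and only if `2 (r - σ) ≤ β d`;
(c) if `r ≥ 1`, then `I_1(σ, T) = O(T^(1+ε))` for all `ε > 0` and `σ ≥ r - d/2`;
(d) if `r ≥ 2`, then `I_k(σ, T) = O(T^(1+ε))` for all `k ≥ 1`, `ε > 0` and `σ ≥ r - d/(2k)`. -/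
theorem result :
    (∀ (r : ℕ) (a : ℝ) (w : Fin r → ℝ), 0 < a → (∀ i, 0 < w i) →
      ∃ Z : ℂ → ℂ, IsBarnesZeta r a w Z) ∧
    ∀ (r : ℕ) (a : ℝ) (w : Fin r → ℝ), 0 < a → (∀ i, 0 < w i) →
      ∀ Z : ℂ → ℂ, IsBarnesZeta r a w Z →
        (∀ (k : ℕ) (σ β : ℝ), 1 ≤ k → 1 / 2 ≤ σ → 1 ≤ β → MomentBound Z k σ β →
          ∀ S : Finset (Fin r), S.Nonempty →
            2 * ((S.card : ℝ) - σ) ≤ (1 + (β - 1) / k) * subDim r w S) ∧
        (∀ (k : ℕ) (σ₁ σ β : ℝ), 1 ≤ k → 1 / 2 < σ₁ → 1 ≤ β → MomentBound Z 1 σ₁ β →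
          (r : ℝ) - (r - σ₁) / k ≤ σ → MomentBound Z k σ β) ∧
        ((∀ i j, IsAlgebraic ℚ (w i / w j)) →
          (∀ σ β : ℝ, 1 / 2 ≤ σ → 1 ≤ β → (MomentBound Z 1 σ β ↔
            ∀ S : Finset (Fin r), S.Nonempty →
              2 * ((S.card : ℝ) - σ) ≤ β * subDim r w S)) ∧
          (1 ≤ r → ∀ σ β : ℝ, 1 / 2 ≤ σ → 1 ≤ β → β ≤ 2 →
            (MomentBound Z 1 σ β ↔ 2 * ((r : ℝ) - σ) ≤ β * weightDim r w)) ∧
          (1 ≤ r → ∀ σ : ℝ, (r : ℝ) - (weightDim r w : ℝ) / 2 ≤ σ → MomentBound Z 1 σ 1) ∧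
          (2 ≤ r → ∀ (k : ℕ) (σ : ℝ), 1 ≤ k → (r : ℝ) - (weightDim r w : ℝ) / (2 * k) ≤ σ →
            MomentBound Z k σ 1)) := by
  refine ⟨exists_zeta, fun r a w ha hw Z hZ => ?_⟩
  have hiff : ∀ σ β : ℝ, 1 / 2 ≤ σ → 1 ≤ β →
      (MomentBound Z 1 σ β ↔ Pool.Agent.T6.H60.BD.PermB w (2 * σ + β) β) := fun σ β hσ hβ =>
    Pool.Agent.T6.H49.BZ.mb1_iff ha hw hZ.holomorphic hZ.series hσ hβ
  have h2 : ∀ (k : ℕ) (σ₁ σ β : ℝ), 1 ≤ k → 1 / 2 < σ₁ → 1 ≤ β → MomentBound Z 1 σ₁ β →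
      (r : ℝ) - (r - σ₁) / k ≤ σ → MomentBound Z k σ β := fun k σ₁ σ β hk hσ₁ hβ hM hσ =>
    Pool.Agent.T6.H49.BZ.mom_interp ha hw hZ.holomorphic hZ.simple_pole hZ.series hσ₁ hβ hM hk hσ
  refine ⟨fun k σ β hk hσ hβ hM => ?_, h2, fun halg => ?_⟩
  · have hk0 : (0 : ℝ) < k := by exact_mod_cast hk
    have h3 : 1 ≤ 1 + (β - 1) / k := by
      have : 0 ≤ (β - 1) / k := div_nonneg (by linarith) hk0.le
      linarith
    have h4 := Pool.Agent.T6.H49.BZ.mb1_of_mb hZ.holomorphic hβ hk hM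
    exact Pool.Agent.T6.H49.BZ.dim_of_perm hw hσ h3 ((hiff σ _ hσ h3).1 h4)
  · have ha3 : ∀ σ β : ℝ, 1 / 2 ≤ σ → 1 ≤ β → (MomentBound Z 1 σ β ↔
        ∀ S : Finset (Fin r), S.Nonempty → 2 * ((S.card : ℝ) - σ) ≤ β * subDim r w S) := by
      intro σ β hσ hβ
      rw [hiff σ β hσ hβ]
      refine ⟨fun h => Pool.Agent.T6.H49.BZ.dim_of_perm hw hσ hβ h, fun h => ?_⟩
      rcases Nat.eq_zero_or_pos r with hr | hr
      · subst hr
        exact Pool.Agent.T6.H49.BZ.perm_of_dim hw one_pos (fun i => i.elim0) hσ hβ h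
      · exact Pool.Agent.T6.H49.BZ.perm_of_dim hw (hw ⟨0, hr⟩) (fun i => halg i _) hσ hβ h
    have hb3 : 1 ≤ r → ∀ σ β : ℝ, 1 / 2 ≤ σ → 1 ≤ β → β ≤ 2 →
        (MomentBound Z 1 σ β ↔ 2 * ((r : ℝ) - σ) ≤ β * weightDim r w) := by
      intro hr σ β hσ hβ hβ2
      rw [ha3 σ β hσ hβ]
      constructor
      · intro h
        have h3 := h Finset.univ ⟨⟨0, hr⟩, Finset.mem_univ _⟩
        rw [subDim_univ, Finset.card_univ, Fintype.card_fin] at h3
        exact h3
      · intro h S hS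
        have h3 : ((weightDim r w : ℕ) : ℝ) + S.card ≤ subDim r w S + r := by
          exact_mod_cast dim_le_subDim r w S
        have h4 : ((S.card : ℕ) : ℝ) ≤ r := by
          have := Finset.card_le_univ S
          rw [Fintype.card_fin] at this
          exact_mod_cast this
        have h5 : β * ((weightDim r w : ℝ) - subDim r w S) ≤ 2 * (r - S.card) := by
          calc β * ((weightDim r w : ℝ) - subDim r w S) ≤ β * (r - S.card) := by
                refine mul_le_mul_of_nonneg_left ?_ (by linarith)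
                linarith
            _ ≤ 2 * (r - S.card) := mul_le_mul_of_nonneg_right hβ2 (by linarith)
        linarith
    have hdr : (weightDim r w : ℝ) ≤ r := by exact_mod_cast dim_le r w
    have hc3 : 1 ≤ r → ∀ σ : ℝ, (r : ℝ) - (weightDim r w : ℝ) / 2 ≤ σ → MomentBound Z 1 σ 1 := by
      intro hr σ hσ
      have hr1 : (1 : ℝ) ≤ r := by exact_mod_cast hr
      exact (hb3 hr σ 1 (by linarith) le_rfl (by norm_num)).2 (by linarith)
    refine ⟨ha3, hb3, hc3, fun hr k σ hk hσ => ?_⟩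
    have hr2 : (2 : ℝ) ≤ r := by exact_mod_cast hr
    have hk0 : (0 : ℝ) < k := by exact_mod_cast hk
    refine h2 k ((r : ℝ) - (weightDim r w : ℝ) / 2) σ 1 hk (by linarith) le_rfl
      (hc3 (by omega) _ le_rfl) (le_trans (le_of_eq ?_) hσ)
    field_simp
    ring

end Pool.Agent.Results.MP_047497_nt.AlgebraicWeights
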