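import Pool.Agent.T6.H60.BD.F
import Pool.Agent.T6.H60.BD.R

/-!
# The mean square of the Barnes multiple zeta-function: an explicit criterion for all weights

Let `‖x‖` be the distance from `x` to the nearest integer. For all `r`, `a > 0`, all positive weights
`w`, every `σ ≥ 1/2` (in particular in the whole range `σ ≥ r - d/2` of the question) and every
`β ≥ 1` the bound `∫_1^T |ζ_r(σ + it; a, w)|² dt = O(T^(β+ε))` holds for all `ε > 0` if and only if
for every `ε > 0` there is `c > 0` such that for every real `y ≥ 1` some permutation `π` of the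
weights satisfies
`∏_{j=1}^r ‖w_{π(j)} y‖^(e_j) ≥ c y^(-β-ε)`, where `e_j = min(2, max(0, 2j - 2σ - β))` (and `0^0 = 1`).
For `σ = r - d/2` and `β = 1`, the case of the question, `e_j = min(2, max(0, d - 1 - 2(r - j)))`: only the
`⌈(d-1)/2⌉` largest distances matter. The criterion is also necessary for the bound `O(T^(β+ε))` for
the `2k`-th moment, for every `k ≥ 1`.

Proof idea. (a) `Γ(s) ζ_r(s; a, w)` is, up to an explicit elementary part, the Mellin transform of a
regularised kernel `K(z) = exp(-a z) ∏ 1/(1 - exp(-w_j z))`. After rotation of the ray of integration,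
Plancherel's theorem, Stirling's formula and a dyadic decomposition show that the mean square bound
is equivalent to `∫_1^Y P_δ(y)^(-2) dy = O(Y^(β+ε) δ^(-(2σ-1+β)-ε))` for `Y ≥ 1`, `0 < δ ≤ 1`, where
`P_δ(y) = ∏_j max(δ, ‖w_j y‖)`. (b) Since `P_δ` is almost constant on intervals of length `δ`, this
implies `P_δ(y)^(-2) = O(δ^(-2σ) (y/δ)^(β+ε))` for all `y ≥ 1`. (c) Conversely, this pointwise bound
implies the bound for the integral: near a point `y` the smallest distance is that of some `w_i y` to an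
integer `m`, and `P_δ(y)` is comparable with `P_x(m/w_i)` with `x = max(δ, |w_i y - m|)`. The sum of
`P_x(m/w_i)^(-2)` over `m ≤ N` is split according to the sizes `2^(-l_j)` of the factors. If `m, m'` have
the same sizes, then `m - m'` has comparable or smaller ones, so the pointwise bound gives
`|m - m'| ≥ g` with `g^(β+ε)` of order `x^(2σ+β+ε) P^(-2)`, and there are at most
`N/g ≤ (N/g)^(β+ε)` such `m`; there are only `O(x^(-ε))` tuples of sizes. (d) For fixed `y` the strongest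
pointwise condition is that with `δ` equal to the distance of index `m` in increasing order, where
`2m > 2σ + β ≥ 2m - 2`; this gives the product with the exponents `e_j`.
-/

set_option autoImplicit false

open Filter Topology Asymptotics MeasureTheory

namespace Pool.Agent.Results.MP_047497_nt.ExplicitCriterion

/-- The Dirichlet series `∑ (a + m₁ w₁ + ⋯ + m_r w_r)^{-s}` over `m ∈ ℕ^r` (with `0 ∈ ℕ`). -/
noncomputable def barnesSeries (r : ℕ) (a : ℝ) (w : Fin r → ℝ) (s : ℂ) : ℂ :=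
  ∑' m : Fin r → ℕ, ((a + ∑ i, (m i : ℝ) * w i : ℝ) : ℂ) ^ (-s)

/-- `Z` is the Barnes multiple zeta-function `ζ_r(·; a, w)`: it is holomorphic on the complex plane
except for possible simple poles at `1, …, r`, and for `Re s > r` it is given by the (summable)
Dirichlet series. -/
structure IsBarnesZeta (r : ℕ) (a : ℝ) (w : Fin r → ℝ) (Z : ℂ → ℂ) : Prop where
  holomorphic : ∀ s : ℂ, (∀ j : ℕ, 1 ≤ j → j ≤ r → s ≠ j) → DifferentiableAt ℂ Z s
  simple_pole : ∀ j : ℕ, 1 ≤ j → j ≤ r →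
    ∃ c : ℂ, Tendsto (fun s : ℂ => (s - j) * Z s) (𝓝[≠] (j : ℂ)) (𝓝 c)
  summable : ∀ s : ℂ, (r : ℝ) < s.re →
    Summable fun m : Fin r → ℕ => ((a + ∑ i, (m i : ℝ) * w i : ℝ) : ℂ) ^ (-s)
  series : ∀ s : ℂ, (r : ℝ) < s.re → Z s = barnesSeries r a w s

/-- The dimension `d` of the `ℚ`-vector space spanned by the weights. -/
noncomputable def weightDim (r : ℕ) (w : Fin r → ℝ) : ℕ :=
  Module.finrank ℚ (Submodule.span ℚ (Set.range w))

/-- The moment `∫_1^T |Z(σ + i t)|^{2k} dt`. -/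
noncomputable def moment (Z : ℂ → ℂ) (k : ℕ) (σ T : ℝ) : ℝ :=
  ∫ t in (1 : ℝ)..T, ‖Z (σ + t * Complex.I)‖ ^ (2 * k)

/-- The bound `I_k(σ, T) = O(T^(β+ε))` for every `ε > 0`. The question is about `β = 1`. -/
def MomentBound (Z : ℂ → ℂ) (k : ℕ) (σ β : ℝ) : Prop :=
  ∀ ε : ℝ, 0 < ε → (fun T : ℝ => moment Z k σ T) =O[atTop] fun T : ℝ => T ^ (β + ε)

/-- The distance from `x` to the nearest integer. -/
noncomputable def distInt (x : ℝ) : ℝ := |x - round x|

/-- The exponent `e_j = min(2, max(0, 2j - 2σ - β))`, for `j = 1, …, r`. -/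
noncomputable def expo (σ β : ℝ) (j : ℕ) : ℝ := min 2 (max 0 (2 * (j : ℝ) - 2 * σ - β))

/-- The Diophantine criterion: for every `ε > 0` there is `c > 0` such that for every real `y ≥ 1`
there is a permutation `π` with `∏_{j=1}^r ‖w_{π(j)} y‖^(e_j) ≥ c y^(-β-ε)`. The index `i : Fin r` runs
over `0, …, r - 1`, so that `j = i + 1`. -/
def Criterion (r : ℕ) (w : Fin r → ℝ) (σ β : ℝ) : Prop :=
  ∀ ε : ℝ, 0 < ε → ∃ c : ℝ, 0 < c ∧ ∀ y : ℝ, 1 ≤ y → ∃ π : Equiv.Perm (Fin r),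
    c * y ^ (-β - ε) ≤ ∏ i : Fin r, (distInt (w (π i) * y)) ^ (expo σ β (i + 1))

theorem exists_zeta (r : ℕ) (a : ℝ) (w : Fin r → ℝ) (ha : 0 < a) (hw : ∀ i, 0 < w i) :
    ∃ Z : ℂ → ℂ, IsBarnesZeta r a w Z := by
  obtain ⟨c, hc⟩ := Pool.Agent.H131R5.BZ.exists_taylor a hw
  refine ⟨Pool.Agent.H131R5.BZ.FF a w c, ?_, ?_, ?_, ?_⟩
  · exact fun s hs => Pool.Agent.H131R5.BZ.FF_diff ha hw hc hs
  · exact fun j h1 h2 => Pool.Agent.Y930.Bz.FF_pole ha hw hc j h1 h2
  · exact fun s hs => (Pool.Agent.H131R5.BZ.FF_series ha hw hc hs).summable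
  · exact fun s hs => (Pool.Agent.H131R5.BZ.FF_series ha hw hc hs).tsum_eq.symm

theorem dim_le (r : ℕ) (w : Fin r → ℝ) : weightDim r w ≤ r := by
  unfold weightDim
  have h := finrank_range_le_card (R := ℚ) (M := ℝ) w
  rw [Fintype.card_fin] at h
  exact h

theorem criterion_iff (r : ℕ) (w : Fin r → ℝ) (σ β : ℝ) :
    Criterion r w σ β ↔ Pool.Agent.T6.H60.BD.PermB w (2 * σ + β) β := by
  have h : ∀ i : Fin r, expo σ β (i + 1) = Pool.Agent.T6.H60.BD.ex (2 * σ + β) i := by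
    intro i
    unfold expo Pool.Agent.T6.H60.BD.ex
    congr 2
    push_cast
    ring
  unfold Criterion Pool.Agent.T6.H60.BD.PermB
  simp only [h]
  exact Iff.rfl

/-- (1) The Barnes multiple zeta-function exists (as defined above) for all `r`, `a > 0` and positive
weights `w`. (2) For all `r`, all `a > 0`, all positive weights, all `σ ≥ 1/2` and all `β ≥ 1` the bound
`∫_1^T |ζ_r(σ + it; a, w)|² dt = O(T^(β+ε))` for all `ε > 0` is equivalent to the Diophantine
criterion; and for every `k ≥ 1` the same bound for the `2k`-th moment implies the criterion.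
(3) If `r ≥ 1` and `d` is the dimension of the weights, then the bound of the question for `k = 1` is
true for all `σ ≥ r - d/2` if and only if the criterion holds with `σ = r - d/2` and `β = 1`. -/
theorem result :
    (∀ (r : ℕ) (a : ℝ) (w : Fin r → ℝ), 0 < a → (∀ i, 0 < w i) →
      ∃ Z : ℂ → ℂ, IsBarnesZeta r a w Z) ∧
    ∀ (r : ℕ) (a : ℝ) (w : Fin r → ℝ), 0 < a → (∀ i, 0 < w i) →
      ∀ Z : ℂ → ℂ, IsBarnesZeta r a w Z →
        (∀ σ β : ℝ, 1 / 2 ≤ σ → 1 ≤ β →
          (MomentBound Z 1 σ β ↔ Criterion r w σ β) ∧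
          (∀ k : ℕ, 1 ≤ k → MomentBound Z k σ β → Criterion r w σ β)) ∧
        (1 ≤ r →
          ((∀ σ : ℝ, (r : ℝ) - (weightDim r w : ℝ) / 2 ≤ σ → MomentBound Z 1 σ 1) ↔
            Criterion r w ((r : ℝ) - (weightDim r w : ℝ) / 2) 1)) := by
  refine ⟨exists_zeta, fun r a w ha hw Z hZ => ?_⟩
  obtain ⟨c, hc⟩ := Pool.Agent.H131R5.BZ.exists_taylor a hw
  have hpt : ∀ σ β : ℝ, 1 / 2 ≤ σ → 1 ≤ β →
      (Criterion r w σ β ↔ Pool.Agent.T6.H60.BD.PtB w σ β) := fun σ β hσ hβ =>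
    (criterion_iff r w σ β).trans (Pool.Agent.T6.H60.BD.pt_perm_iff hσ hβ).symm
  have h1 : ∀ σ β : ℝ, 1 / 2 ≤ σ → 1 ≤ β → (MomentBound Z 1 σ β ↔ Criterion r w σ β) := by
    intro σ β hσ hβ
    have e1 := Pool.Agent.T6.H60.BD.mom_bigO_iff ha hw hc hZ.holomorphic hZ.series σ hβ
    have e2 := Pool.Agent.T6.H60.BD.mom_iff ha hw hc hσ hβ
    have e3 := Pool.Agent.T6.H60.BD.crit_pt_iff hw hσ hβ
    exact e1.trans (e2.trans (e3.trans (hpt σ β hσ hβ).symm))
  refine ⟨fun σ β hσ hβ => ⟨h1 σ β hσ hβ, fun k hk hM => (h1 σ β hσ hβ).1 fun ε hε => ?_⟩,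
    fun hr => ?_⟩
  · exact Pool.Agent.T6.H60.BD.mom_one_of_mom hZ.holomorphic hk hβ hε (hM ε hε)
  · have hdr : (weightDim r w : ℝ) ≤ r := by exact_mod_cast dim_le r w
    have hr1 : (1 : ℝ) ≤ r := by exact_mod_cast hr
    set σ₀ : ℝ := (r : ℝ) - (weightDim r w : ℝ) / 2 with hσ₀
    have hσ₀1 : 1 / 2 ≤ σ₀ := by linarith
    constructor
    · intro h
      exact (h1 σ₀ 1 hσ₀1 le_rfl).1 (h σ₀ le_rfl)
    · intro h σ hσ
      refine (h1 σ 1 (hσ₀1.trans hσ) le_rfl).2 ((hpt σ 1 (hσ₀1.trans hσ) le_rfl).2 ?_)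
      intro ε hε
      obtain ⟨C, hC, hb⟩ := (hpt σ₀ 1 hσ₀1 le_rfl).1 h ε hε
      refine ⟨C, hC, fun y δ hy hδ hδ1 => (hb y δ hy hδ hδ1).trans ?_⟩
      have h2 : δ ^ (-(2 * σ₀)) ≤ δ ^ (-(2 * σ)) :=
        Real.rpow_le_rpow_of_exponent_ge hδ hδ1 (by linarith)
      have h3 : 0 ≤ (y / δ) ^ ((1 : ℝ) + ε) := by positivity
      gcongr

end Pool.Agent.Results.MP_047497_nt.ExplicitCriterion
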