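import Pool.Agent.T6.H49.BZ.Mom
import Pool.Agent.T6.H79.BZ5.Main5

/-!
# The fourth moment of the Barnes multiple zeta-function for all weights and almost all shifts

Let `‖x‖` be the distance from `x` to the nearest integer. For `σ ≥ 1/2` and `β ≥ 1` consider the
Diophantine criterion of `ExplicitCriterion`: for every `ε > 0` there is `c > 0` such that for every
real `y ≥ 1` some permutation `π` of the weights satisfies
`∏_{j=1}^r ‖w_{π(j)} y‖^(e_j) ≥ c y^(-β-ε)`, `e_j = min(2, max(0, 2j - 2σ - β))`. It is equivalent to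
`I_1(σ, T) = O(T^(β+ε))`. We show: for all positive weights `w` and almost every `a > 0` it is
equivalent to `I_2(σ, T) = O(T^(2β-1+ε))`, for all `σ ≥ 1/2` and `β ≥ 1` at the same time. So the growth
exponents of the first two moments satisfy `β_2(σ) = 2 β_1(σ) - 1`, and the bound of the question for
`k = 2` holds in the full range `σ ≥ r - d/2` if and only if the one for `k = 1` does, if and only if the
criterion holds for `σ = r - d/2` and `β = 1`. In this case the bound of the question holds for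
`k ≥ 3` and `σ ≥ r - d/k` too. This applies to all weights with algebraic ratios and to almost all weights
in each rational family.

Proof idea. As for the mean square, `Γ(s) ζ_r(s; a, w)` is the Mellin transform of a regularised kernel;
after rotation of the ray to the angle `π/2 - 1/T` the fourth moment over `[T, 2T]` is a fourth moment of
a Fourier transform of `K(z) = exp(-a z) ∏ 1/(1 - exp(-w_j z))` on the ray. The ray is split into dyadic
blocks `|z| ~ Y`, and each block is split into the level sets where all `‖w_j y‖` have given sizes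
`2^(-κ_j)`; there are `O((log T)^(r+1))` pieces. By Plancherel's theorem the fourth moment for one piece
is an integral over `(y_1, y_2, y_3, y_4)` with `y_1 y_4 = y_2 y_3`, and the average over the shift `a` of
`exp(-a (z_1 + z_4 - z_2 - z_3))` restricts it to `y_1 + y_4 = y_2 + y_3 + O(1)`, so that
`(y_1 - y_2)(y_1 - y_3) = O(Y)`. By the pointwise form of the criterion the points of a level set lie in
short intervals with gaps `≥ g`, where `g^β` is of order `x^(2σ+β) ∏ 2^(2 κ_j)`, `x = min 2^(-κ_j)`; a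
level set in the block is empty unless `g = O(Y)`. So there are `O((Y/g)^2 log T)` quadruples of
intervals, which gives the bound. The Borel–Cantelli lemma gives almost all `a`. A theorem of Gabriel's
kind between `σ₀` and a line to the right of `r` gives the higher moments and all real parameters.
-/

set_option autoImplicit false

open Filter Topology Asymptotics MeasureTheory

namespace Pool.Agent.Results.MP_047497_nt.FourthMomentExact

/-- The Dirichlet series `∑ (a + m₁ w₁ + ⋯ + m_r w_r)^{-s}` over `m ∈ ℕ^r` (with `0 ∈ ℕ`). -/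
noncomputable def barnesSeries (r : ℕ) (a : ℝ) (w : Fin r → ℝ) (s : ℂ) : ℂ :=
  ∑' m : Fin r → ℕ, ((a + ∑ i, (m i : ℝ) * w i : ℝ) : ℂ) ^ (-s)

/-- `Z` is the Barnes multiple zeta-function `ζ_r(·; a, w)`: it is holomorphic on the complex plane
except for possible simple poles at `1, …, r`, and for `Re s > r` it is given by the (summable)
Dirichlet series. -/
structure IsBarnesZeta (r : ℕ) (a : ℝ) (w : Fin r → ℝ) (Z : ℂ → ℂ) : Prop where
  holomorphic : ∀ s : ℂ, (∀ j : ℕ, 1 ≤ j → j ≤ r → s ≠ j) → DifferentiableAt ℂ Z s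
  simple_pole : ∀ j : ℕ, 1 ≤ j → j ≤ r →
    ∃ c : ℂ, Tendsto (fun s : ℂ => (s - j) * Z s) (𝓝[≠] (j : ℂ)) (𝓝 c)
  summable : ∀ s : ℂ, (r : ℝ) < s.re →
    Summable fun m : Fin r → ℕ => ((a + ∑ i, (m i : ℝ) * w i : ℝ) : ℂ) ^ (-s)
  series : ∀ s : ℂ, (r : ℝ) < s.re → Z s = barnesSeries r a w s

/-- The dimension `d` of the `ℚ`-vector space spanned by the weights. -/
noncomputable def weightDim (r : ℕ) (w : Fin r → ℝ) : ℕ :=
  Module.finrank ℚ (Submodule.span ℚ (Set.range w))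

/-- The dimension of the `ℚ`-vector space spanned by the weights `w_i` with `i ∈ S`. -/
noncomputable def subDim (r : ℕ) (w : Fin r → ℝ) (S : Finset (Fin r)) : ℕ :=
  Module.finrank ℚ (Submodule.span ℚ (w '' (S : Set (Fin r))))

/-- The moment `∫_1^T |Z(σ + i t)|^{2k} dt`. -/
noncomputable def moment (Z : ℂ → ℂ) (k : ℕ) (σ T : ℝ) : ℝ :=
  ∫ t in (1 : ℝ)..T, ‖Z (σ + t * Complex.I)‖ ^ (2 * k)

/-- The bound `I_k(σ, T) = O(T^(β+ε))` for every `ε > 0`. The question is about `β = 1`. -/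
def MomentBound (Z : ℂ → ℂ) (k : ℕ) (σ β : ℝ) : Prop :=
  ∀ ε : ℝ, 0 < ε → (fun T : ℝ => moment Z k σ T) =O[atTop] fun T : ℝ => T ^ (β + ε)

/-- The distance from `x` to the nearest integer. -/
noncomputable def distInt (x : ℝ) : ℝ := |x - round x|

/-- The exponent `e_j = min(2, max(0, 2j - 2σ - β))`, for `j = 1, …, r`. -/
noncomputable def expo (σ β : ℝ) (j : ℕ) : ℝ := min 2 (max 0 (2 * (j : ℝ) - 2 * σ - β))

/-- The Diophantine criterion: for every `ε > 0` there is `c > 0` such that for every real `y ≥ 1`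
there is a permutation `π` with `∏_{j=1}^r ‖w_{π(j)} y‖^(e_j) ≥ c y^(-β-ε)`. The index `i : Fin r` runs
over `0, …, r - 1`, so that `j = i + 1`. -/
def Criterion (r : ℕ) (w : Fin r → ℝ) (σ β : ℝ) : Prop :=
  ∀ ε : ℝ, 0 < ε → ∃ c : ℝ, 0 < c ∧ ∀ y : ℝ, 1 ≤ y → ∃ π : Equiv.Perm (Fin r),
    c * y ^ (-β - ε) ≤ ∏ i : Fin r, (distInt (w (π i) * y)) ^ (expo σ β (i + 1))

/-- `HigherMoments r a w`: with `d` the dimension of the weights, `I_k(σ, T) = O(T^(1+ε))` for all
`k ≥ 2`, all `σ ≥ r - d/k` and all `ε > 0`. For `k = 2` this is the full range of the question. -/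
def HigherMoments (r : ℕ) (a : ℝ) (w : Fin r → ℝ) : Prop :=
  ∀ Z : ℂ → ℂ, IsBarnesZeta r a w Z → ∀ (k : ℕ) (σ : ℝ), 2 ≤ k →
    (r : ℝ) - (weightDim r w : ℝ) / k ≤ σ → MomentBound Z k σ 1

theorem exists_zeta (r : ℕ) (a : ℝ) (w : Fin r → ℝ) (ha : 0 < a) (hw : ∀ i, 0 < w i) :
    ∃ Z : ℂ → ℂ, IsBarnesZeta r a w Z := by
  obtain ⟨c, hc⟩ := Pool.Agent.H131R5.BZ.exists_taylor a hw
  refine ⟨Pool.Agent.H131R5.BZ.FF a w c, ?_, ?_, ?_, ?_⟩
  · exact fun s hs => Pool.Agent.H131R5.BZ.FF_diff ha hw hc hs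
  · exact fun j h1 h2 => Pool.Agent.Y930.Bz.FF_pole ha hw hc j h1 h2
  · exact fun s hs => (Pool.Agent.H131R5.BZ.FF_series ha hw hc hs).summable
  · exact fun s hs => (Pool.Agent.H131R5.BZ.FF_series ha hw hc hs).tsum_eq.symm

theorem dim_le (r : ℕ) (w : Fin r → ℝ) : weightDim r w ≤ r := by
  unfold weightDim
  have h := finrank_range_le_card (R := ℚ) (M := ℝ) w
  rw [Fintype.card_fin] at h
  exact h

theorem dim_pos {r : ℕ} {w : Fin r → ℝ} (hr : 1 ≤ r) (hw : ∀ i, 0 < w i) : 1 ≤ weightDim r w := by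
  unfold weightDim
  haveI : FiniteDimensional ℚ (Submodule.span ℚ (Set.range w)) :=
    FiniteDimensional.span_of_finite ℚ (Set.finite_range w)
  by_contra h
  have h0 : Module.finrank ℚ (Submodule.span ℚ (Set.range w)) = 0 := by omega
  rw [Submodule.finrank_eq_zero] at h0
  have h1 : w ⟨0, hr⟩ ∈ Submodule.span ℚ (Set.range w) :=
    Submodule.subset_span (Set.mem_range_self _)
  rw [h0, Submodule.mem_bot] at h1
  exact (hw _).ne' h1

theorem criterion_iff (r : ℕ) (w : Fin r → ℝ) (σ β : ℝ) :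
    Criterion r w σ β ↔ Pool.Agent.T6.H60.BD.PermB w (2 * σ + β) β := by
  have h : ∀ i : Fin r, expo σ β (i + 1) = Pool.Agent.T6.H60.BD.ex (2 * σ + β) i := by
    intro i
    unfold expo Pool.Agent.T6.H60.BD.ex
    congr 2
    push_cast
    ring
  unfold Criterion Pool.Agent.T6.H60.BD.PermB
  simp only [h]
  exact Iff.rfl

theorem criterion_pt {r : ℕ} {w : Fin r → ℝ} {σ β : ℝ} (hσ : 1 / 2 ≤ σ) (hβ : 1 ≤ β) :
    Criterion r w σ β ↔ Pool.Agent.T6.H60.BD.PtB w σ β :=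
  (criterion_iff r w σ β).trans (Pool.Agent.T6.H60.BD.pt_perm_iff hσ hβ).symm

/-- from the continuation to an arbitrary function as in `IsBarnesZeta` -/
theorem moment_of_FF {r : ℕ} {a : ℝ} {w : Fin r → ℝ} (ha : 0 < a) (hw : ∀ i, 0 < w i)
    {c : ℕ → ℂ} (hc : Pool.Agent.Y930.Bz.Tay a w c) {Z : ℂ → ℂ} (hZ : IsBarnesZeta r a w Z)
    {k : ℕ} {σ τ C : ℝ} (hC : 0 ≤ C)
    (hb : ∀ T : ℝ, 1 ≤ T → ∫⁻ t in Set.Icc 1 T,
      ‖Pool.Agent.H131R5.BZ.FF a w c ((σ : ℂ) + (t : ℂ) * Complex.I)‖ₑ ^ (2 * k) ≤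
      ENNReal.ofReal (C * T ^ τ)) :
    (fun T : ℝ => moment Z k σ T) =O[atTop] fun T : ℝ => T ^ τ := by
  have hZF : ∀ t : ℝ, 1 ≤ t → Z ((σ : ℂ) + t * Complex.I) =
      Pool.Agent.H131R5.BZ.FF a w c ((σ : ℂ) + t * Complex.I) := fun t ht =>
    Pool.Agent.T6.H60.BD.ZF ha hw hc hZ.holomorphic hZ.series σ ht
  refine IsBigO.of_bound C (eventually_atTop.2 ⟨1, fun T hT => ?_⟩)
  have h1 : ‖moment Z k σ T‖ ≤ (∫⁻ t in Set.Icc 1 T,
      ‖Pool.Agent.H131R5.BZ.FF a w c ((σ : ℂ) + t * Complex.I)‖ₑ ^ (2 * k)).toReal := by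
    unfold moment
    rw [intervalIntegral.integral_of_le hT]
    refine (norm_integral_le_lintegral_norm _).trans ?_
    apply ENNReal.toReal_mono
    · exact ne_top_of_le_ne_top ENNReal.ofReal_ne_top (hb T hT)
    · refine (lintegral_mono_set Set.Ioc_subset_Icc_self).trans ?_
      refine setLIntegral_mono' measurableSet_Icc fun t ht => ?_
      rw [← hZF t ht.1, norm_pow, norm_norm, ENNReal.ofReal_pow (norm_nonneg _), ofReal_norm]
  have hT0 : 0 ≤ T := by linarith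
  have h2 : (∫⁻ t in Set.Icc 1 T,
      ‖Pool.Agent.H131R5.BZ.FF a w c ((σ : ℂ) + t * Complex.I)‖ₑ ^ (2 * k)).toReal ≤
      C * T ^ τ := by
    refine ENNReal.toReal_le_of_le_ofReal (by positivity) (hb T hT)
  rw [Real.norm_of_nonneg (show 0 ≤ T ^ τ by positivity)]
  exact h1.trans h2

/-- the mean square bound and the criterion (`ExplicitCriterion`) -/
theorem one_iff {r : ℕ} {a : ℝ} {w : Fin r → ℝ} (ha : 0 < a) (hw : ∀ i, 0 < w i) {Z : ℂ → ℂ}
    (hZ : IsBarnesZeta r a w Z) {σ β : ℝ} (hσ : 1 / 2 ≤ σ) (hβ : 1 ≤ β) :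
    MomentBound Z 1 σ β ↔ Criterion r w σ β :=
  (Pool.Agent.T6.H49.BZ.mb1_iff ha hw hZ.holomorphic hZ.series hσ hβ).trans
    (criterion_iff r w σ β).symm

/-- the necessary condition -/
theorem crit_of_moment {r : ℕ} {a : ℝ} {w : Fin r → ℝ} (ha : 0 < a) (hw : ∀ i, 0 < w i)
    {Z : ℂ → ℂ} (hZ : IsBarnesZeta r a w Z) {k : ℕ} (hk : 1 ≤ k) {σ β : ℝ} (hσ : 1 / 2 ≤ σ)
    (hβ : 1 ≤ β) (h : MomentBound Z k σ (k * β - k + 1)) : Criterion r w σ β := by
  refine (one_iff ha hw hZ hσ hβ).1 fun ε hε => ?_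
  have hk0 : (0 : ℝ) < k := by exact_mod_cast hk
  exact Pool.Agent.T6.H79.BZ5.mom_one_of_mom' hZ.holomorphic hk (h (k * ε) (by positivity))

/-- the upper bounds for almost all shifts -/
theorem ae_bounds {r : ℕ} (hr : 1 ≤ r) {w : Fin r → ℝ} (hw : ∀ i, 0 < w i) :
    ∀ᵐ a : ℝ, 0 < a → ∀ Z : ℂ → ℂ, IsBarnesZeta r a w Z →
      ∀ σ₀ β : ℝ, 1 / 2 ≤ σ₀ → 1 ≤ β → Criterion r w σ₀ β → ∀ (k : ℕ) (σ : ℝ), 2 ≤ k → σ₀ ≤ σ →
        k * (r - σ) ≤ 2 * (r - σ₀) → (σ₀ < r ∨ k = 2) → MomentBound Z k σ (2 * β - 1) := by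
  filter_upwards [Pool.Agent.T6.H79.BZ5.ae_moments5 hr hw] with a ha ha0 Z hZ σ₀ β hσ₀ hβ hcr k σ
    hk hσ hσk hcase ε hε
  obtain ⟨c, hc⟩ := Pool.Agent.H131R5.BZ.exists_taylor a hw
  obtain ⟨C, hC, hb⟩ := ha ha0 c hc σ₀ β hσ₀ hβ ((criterion_pt hσ₀ hβ).1 hcr) k σ ε hk hσ hσk
    hcase hε
  exact moment_of_FF ha0 hw hc hZ hC hb

/-- the higher moments under the criterion -/
theorem higher_of_crit {r : ℕ} (hr : 1 ≤ r) {w : Fin r → ℝ} (hw : ∀ i, 0 < w i)
    (hcr : Criterion r w ((r : ℝ) - (weightDim r w : ℝ) / 2) 1) :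
    ∀ᵐ a : ℝ, 0 < a → HigherMoments r a w := by
  filter_upwards [ae_bounds hr hw] with a ha ha0 Z hZ k σ hk hσ
  have hdr : (weightDim r w : ℝ) ≤ r := by exact_mod_cast dim_le r w
  have hd1 : (1 : ℝ) ≤ weightDim r w := by exact_mod_cast dim_pos hr hw
  have hr1 : (1 : ℝ) ≤ r := by exact_mod_cast hr
  have hk2 : (2 : ℝ) ≤ k := by exact_mod_cast hk
  have hk0 : (0 : ℝ) < k := by linarith
  have h1 : (weightDim r w : ℝ) / k ≤ (weightDim r w : ℝ) / 2 :=
    div_le_div_of_nonneg_left (by linarith) (by norm_num) hk2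
  have h2 : (k : ℝ) * (r - σ) ≤ weightDim r w := by
    calc (k : ℝ) * (r - σ) ≤ k * ((weightDim r w : ℝ) / k) := by
          apply mul_le_mul_of_nonneg_left _ hk0.le
          linarith
      _ = weightDim r w := by field_simp
  have h3 := ha ha0 Z hZ ((r : ℝ) - (weightDim r w : ℝ) / 2) 1 (by linarith) le_rfl hcr k σ hk
    (by linarith) (by linarith) (Or.inl (by linarith))
  have e1 : (2 : ℝ) * 1 - 1 = 1 := by norm_num
  rwa [e1] at h3

/-- the criterion for weights with algebraic ratios and all parameters -/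
theorem crit_alg_iff {r : ℕ} (hr : 1 ≤ r) {w : Fin r → ℝ} (hw : ∀ i, 0 < w i)
    (halg : ∀ i j, IsAlgebraic ℚ (w i / w j)) {σ β : ℝ} (hσ : 1 / 2 ≤ σ) (hβ : 1 ≤ β) :
    Criterion r w σ β ↔ ∀ S : Finset (Fin r), S.Nonempty →
      2 * ((S.card : ℝ) - σ) ≤ β * subDim r w S :=
  (criterion_iff _ _ _ _).trans ⟨fun h => Pool.Agent.T6.H49.BZ.dim_of_perm hw hσ hβ h,
    fun h => Pool.Agent.T6.H49.BZ.perm_of_dim hw (hw ⟨0, hr⟩) (fun i => halg i _) hσ hβ h⟩

/-- the criterion of the question for weights with algebraic ratios -/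
theorem crit_of_alg {r : ℕ} (hr : 1 ≤ r) {w : Fin r → ℝ} (hw : ∀ i, 0 < w i)
    (halg : ∀ i j, IsAlgebraic ℚ (w i / w j)) :
    Criterion r w ((r : ℝ) - (weightDim r w : ℝ) / 2) 1 := by
  have hdr : (weightDim r w : ℝ) ≤ r := by exact_mod_cast dim_le r w
  have hr1 : (1 : ℝ) ≤ r := by exact_mod_cast hr
  refine (crit_alg_iff hr hw halg (by linarith) le_rfl).2 ?_
  intro S hS
  classical
  have h1 : Submodule.span ℚ (Set.range w) =
      Submodule.span ℚ (w '' (S : Set (Fin r))) ⊔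
        Submodule.span ℚ ((Sᶜ.image w : Finset ℝ) : Set ℝ) := by
    rw [← Submodule.span_union, Finset.coe_image, ← Set.image_union, Finset.coe_compl,
      Set.union_compl_self, Set.image_univ]
  have hf1 : Module.Finite ℚ (Submodule.span ℚ (w '' (S : Set (Fin r)))) :=
    FiniteDimensional.span_of_finite ℚ (Set.toFinite _)
  have hf2 : Module.Finite ℚ (Submodule.span ℚ ((Sᶜ.image w : Finset ℝ) : Set ℝ)) :=
    FiniteDimensional.span_of_finite ℚ (Set.toFinite _)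
  have h2 := Submodule.finrank_add_le_finrank_add_finrank
    (Submodule.span ℚ (w '' (S : Set (Fin r))))
    (Submodule.span ℚ ((Sᶜ.image w : Finset ℝ) : Set ℝ))
  rw [← h1] at h2
  have h3 := finrank_span_finset_le_card (R := ℚ) (Sᶜ.image w)
  have h4 : (Sᶜ.image w).card ≤ Sᶜ.card := Finset.card_image_le
  have h5 : Sᶜ.card + S.card = r := by
    rw [Finset.card_compl, Fintype.card_fin]
    have := Finset.card_le_univ S
    rw [Fintype.card_fin] at this
    omega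
  have h6 : (↑(Finset.image w Sᶜ) : Set ℝ).finrank ℚ =
      Module.finrank ℚ (Submodule.span ℚ ((Sᶜ.image w : Finset ℝ) : Set ℝ)) := rfl
  have h7 : weightDim r w + S.card ≤ subDim r w S + r := by
    unfold weightDim subDim
    omega
  have h8 : (weightDim r w : ℝ) + S.card ≤ (subDim r w S : ℝ) + r := by exact_mod_cast h7
  have h9 : (S.card : ℝ) ≤ r := by
    have := Finset.card_le_univ S
    rw [Fintype.card_fin] at this
    exact_mod_cast this
  linarith

/-- the criterion for almost all weights -/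
theorem crit_of_good {d : ℕ} (hd : 1 ≤ d) {v : Fin d → ℝ} (hv : LinearIndependent ℚ v)
    (hG : Pool.Agent.Y616.BM.Good v) {r : ℕ} {w : Fin r → ℝ} (hw : ∀ i, 0 < w i)
    (hspan : Submodule.span ℚ (Set.range w) = Submodule.span ℚ (Set.range v)) :
    1 ≤ r ∧ weightDim r w = d ∧ Criterion r w ((r : ℝ) - (weightDim r w : ℝ) / 2) 1 := by
  have hdim : weightDim r w = d := by
    unfold weightDim
    rw [hspan, finrank_span_eq_card hv]
    simp
  have hdr := dim_le r w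
  have hr : 1 ≤ r := by omega
  refine ⟨hr, hdim, ?_⟩
  have hdr' : (weightDim r w : ℝ) ≤ r := by exact_mod_cast hdr
  have hr1 : (1 : ℝ) ≤ r := by exact_mod_cast hr
  have hσ : 1 / 2 ≤ (r : ℝ) - (weightDim r w : ℝ) / 2 := by linarith
  obtain ⟨c, hc⟩ := Pool.Agent.H131R5.BZ.exists_taylor 1 hw
  refine (criterion_pt hσ le_rfl).2 ((Pool.Agent.T6.H60.BD.crit_pt_iff hw hσ le_rfl).1
    ((Pool.Agent.T6.H60.BD.mom_iff one_pos hw hc hσ le_rfl).1 fun ε hε => ?_))
  exact Pool.Agent.Y616.BM.second_moment hd hv hG one_pos hw hspan hc (by rw [hdim]) hε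

/-- (1) The Barnes multiple zeta-function exists (as defined above).
(2) Let `r ≥ 1` and let `w` be arbitrary positive weights, `d` their dimension. For almost every `a > 0`:
(a) for all `σ ≥ 1/2` and `β ≥ 1` the bound `I_2(σ, T) = O(T^(2β-1+ε))` for all `ε > 0`, the bound
`I_1(σ, T) = O(T^(β+ε))` for all `ε > 0` and the Diophantine criterion are equivalent;
(b) the bound of the question for `k = 2` holds for all `σ ≥ r - d/2` if and only if the criterion holds
for `σ = r - d/2` and `β = 1`;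
(c) if `1/2 ≤ σ₀ < r`, `β ≥ 1` and the criterion holds for `(σ₀, β)`, then `I_k(σ, T) = O(T^(2β-1+ε))` for
all `k ≥ 2`, all `σ ≥ r - 2(r-σ₀)/k` and all `ε > 0`.
(3) If the criterion holds for `(r - d/2, 1)`, then for almost every `a > 0` the bound of the question
holds for all `k ≥ 2` and `σ ≥ r - d/k`. This is the case if all ratios of weights are algebraic (in this
case the criterion for `(σ, β)` means `2 (|S| - σ) ≤ β dim_ℚ span {w_i : i ∈ S}` for all nonempty `S`); and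
for every `d ≥ 1` and almost every `v ∈ ℝ^d` it is the case for all positive weights, in any number `r`,
which span the same `ℚ`-space as `v`.
(4) For all `a > 0`, `k ≥ 1`, `σ ≥ 1/2`, `β ≥ 1`, if `I_k(σ, T) = O(T^(kβ-k+1+ε))` for all `ε > 0`, then
the criterion holds for `(σ, β)`. -/
theorem result :
    (∀ (r : ℕ) (a : ℝ) (w : Fin r → ℝ), 0 < a → (∀ i, 0 < w i) →
      ∃ Z : ℂ → ℂ, IsBarnesZeta r a w Z) ∧
    (∀ (r : ℕ) (w : Fin r → ℝ), 1 ≤ r → (∀ i, 0 < w i) → ∀ᵐ a : ℝ, 0 < a →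
      ∀ Z : ℂ → ℂ, IsBarnesZeta r a w Z →
        (∀ σ β : ℝ, 1 / 2 ≤ σ → 1 ≤ β →
          (MomentBound Z 2 σ (2 * β - 1) ↔ Criterion r w σ β) ∧
          (MomentBound Z 2 σ (2 * β - 1) ↔ MomentBound Z 1 σ β)) ∧
        ((∀ σ : ℝ, (r : ℝ) - (weightDim r w : ℝ) / 2 ≤ σ → MomentBound Z 2 σ 1) ↔
          Criterion r w ((r : ℝ) - (weightDim r w : ℝ) / 2) 1) ∧
        (∀ σ₀ β : ℝ, 1 / 2 ≤ σ₀ → σ₀ < r → 1 ≤ β → Criterion r w σ₀ β →
          ∀ (k : ℕ) (σ : ℝ), 2 ≤ k → (r : ℝ) - 2 * (r - σ₀) / k ≤ σ →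
            MomentBound Z k σ (2 * β - 1))) ∧
    ((∀ (r : ℕ) (w : Fin r → ℝ), 1 ≤ r → (∀ i, 0 < w i) →
        Criterion r w ((r : ℝ) - (weightDim r w : ℝ) / 2) 1 →
        ∀ᵐ a : ℝ, 0 < a → HigherMoments r a w) ∧
      (∀ (r : ℕ) (w : Fin r → ℝ), 1 ≤ r → (∀ i, 0 < w i) →
        (∀ i j, IsAlgebraic ℚ (w i / w j)) →
        (∀ σ β : ℝ, 1 / 2 ≤ σ → 1 ≤ β → (Criterion r w σ β ↔
          ∀ S : Finset (Fin r), S.Nonempty → 2 * ((S.card : ℝ) - σ) ≤ β * subDim r w S)) ∧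
        Criterion r w ((r : ℝ) - (weightDim r w : ℝ) / 2) 1 ∧
          ∀ᵐ a : ℝ, 0 < a → HigherMoments r a w) ∧
      (∀ d : ℕ, 1 ≤ d → ∀ᵐ v : Fin d → ℝ, ∀ (r : ℕ) (w : Fin r → ℝ), (∀ i, 0 < w i) →
        Submodule.span ℚ (Set.range w) = Submodule.span ℚ (Set.range v) →
        weightDim r w = d ∧ Criterion r w ((r : ℝ) - (weightDim r w : ℝ) / 2) 1 ∧
          ∀ᵐ a : ℝ, 0 < a → HigherMoments r a w)) ∧
    (∀ (r : ℕ) (a : ℝ) (w : Fin r → ℝ), 0 < a → (∀ i, 0 < w i) →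
      ∀ Z : ℂ → ℂ, IsBarnesZeta r a w Z → ∀ (k : ℕ) (σ β : ℝ), 1 ≤ k → 1 / 2 ≤ σ → 1 ≤ β →
        MomentBound Z k σ (k * β - k + 1) → Criterion r w σ β) := by
  refine ⟨exists_zeta, fun r w hr hw => ?_, ⟨fun r w hr hw hcr => higher_of_crit hr hw hcr,
    fun r w hr hw halg => ⟨fun σ β hσ hβ => crit_alg_iff hr hw halg hσ hβ,
      crit_of_alg hr hw halg, higher_of_crit hr hw (crit_of_alg hr hw halg)⟩,
    fun d hd => ?_⟩, fun r a w ha hw Z hZ k σ β hk hσ hβ h => crit_of_moment ha hw hZ hk hσ hβ h⟩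
  · filter_upwards [ae_bounds hr hw] with a ha ha0 Z hZ
    have hub := ha ha0 Z hZ
    have hdr : (weightDim r w : ℝ) ≤ r := by exact_mod_cast dim_le r w
    have hr1 : (1 : ℝ) ≤ r := by exact_mod_cast hr
    have h2 : ∀ σ β : ℝ, 1 / 2 ≤ σ → 1 ≤ β →
        (MomentBound Z 2 σ (2 * β - 1) ↔ Criterion r w σ β) := by
      intro σ β hσ hβ
      constructor
      · intro h
        refine crit_of_moment ha0 hw hZ (k := 2) (by norm_num) hσ hβ ?_
        have e1 : ((2 : ℕ) : ℝ) * β - ((2 : ℕ) : ℝ) + 1 = 2 * β - 1 := by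
          push_cast
          ring
        rwa [e1]
      · intro h
        refine hub σ β hσ hβ h 2 σ le_rfl le_rfl ?_ (Or.inr rfl)
        push_cast
        exact le_rfl
    refine ⟨fun σ β hσ hβ => ⟨h2 σ β hσ hβ, (h2 σ β hσ hβ).trans
      (one_iff ha0 hw hZ hσ hβ).symm⟩, ?_, ?_⟩
    · have e1 : (2 : ℝ) * 1 - 1 = 1 := by norm_num
      set σ₀ : ℝ := (r : ℝ) - (weightDim r w : ℝ) / 2 with hσ₀
      have hσ₀1 : 1 / 2 ≤ σ₀ := by linarith
      constructor
      · intro h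
        refine (h2 σ₀ 1 hσ₀1 le_rfl).1 ?_
        rw [e1]
        exact h σ₀ le_rfl
      · intro h σ hσ
        have h3 := hub σ₀ 1 hσ₀1 le_rfl h 2 σ le_rfl hσ (by
          push_cast
          linarith) (Or.inr rfl)
        rwa [e1] at h3
    · intro σ₀ β hσ₀ hσr hβ hcr k σ hk hσ
      have hk2 : (2 : ℝ) ≤ k := by exact_mod_cast hk
      have hk0 : (0 : ℝ) < k := by linarith
      have h4 : (k : ℝ) * (r - σ) ≤ 2 * (r - σ₀) := by
        calc (k : ℝ) * (r - σ) ≤ k * (2 * (r - σ₀) / k) := by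
              apply mul_le_mul_of_nonneg_left _ hk0.le
              linarith
          _ = _ := by field_simp
      have h5 : σ₀ ≤ σ := by
        have h6 : 2 * (r - σ₀) / k ≤ r - σ₀ := by
          rw [div_le_iff₀ hk0]
          nlinarith
        linarith
      exact hub σ₀ β hσ₀ hβ hcr k σ hk h5 h4 (Or.inl hσr)
  · filter_upwards [Pool.Agent.Y616.BM.ae_good d, Pool.Agent.Y616.BM.ae_indep d] with v hG hv r w
      hw hspan
    obtain ⟨hr, hdim, hcr⟩ := crit_of_good hd hv hG hw hspan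
    exact ⟨hdim, hcr, higher_of_crit hr hw hcr⟩

end Pool.Agent.Results.MP_047497_nt.FourthMomentExact
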