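import Pool.Agent.T6.H60.BD.M

/-!
# The exact growth exponent of the mean square of the Barnes multiple zeta-function

Let `‖x‖` be the distance from `x` to the nearest integer, and let `λ(w)` in `[1/(d-1), ∞]` be the
exponent of simultaneous approximation of the weights: the infimum of the `λ > 0` such that
`max_j ‖w_j y‖ ≥ c y^(-λ)` for some `c > 0` and all `y ≥ 1`. We show that for all `r`, all positive
weights, all `a > 0` and all `σ ≥ max(1/2, r - 3/2)` the mean square `∫_1^T |ζ_r(σ + it; a, w)|² dt` is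
`O(T^(β+ε))` for all `ε > 0` (where `β ≥ 1`) if and only if `β ≥ 2(r - σ) λ(w)/(1 + λ(w))`. In
particular, for `β = 1`, the bound of the question for `k = 1` holds at `σ` if and only if
`σ ≥ r - 1/2 - 1/(2 λ(w))`; if it fails then it fails for all `k`. For the dimensions `d ≤ 3` this
covers the whole range `σ ≥ r - d/2`, and the conjectured bound for `k = 1` is true in the whole range
if and only if `λ(w) = 1/(d-1)`, that is, if the weights are not better simultaneously approximable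
than generic ones. For `d = 2` the number `1 + λ(w)` is the irrationality exponent of any irrational
quotient of two weights.

Proof idea: by a Diophantine criterion (file `GrowthCriterion`) the bound is equivalent to
`∫_1^Y ∏_j max(δ, ‖w_j y‖)^(-2) dy ≪ Y^(β+ε) δ^(-(2σ-1+β)-ε)`. The product is at most
`B_min^(-2(r-1)) B_max^(-2)`, where `B_j = max(δ, ‖w_j y‖)`; if `B_min = B_i` then `y` is close to
`k / w_i` for an integer `k`, and `B_max` is at least a constant times `f(k) = max_j ‖w_j k / w_i‖`. The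
function `f` is subadditive, so that a packing argument bounds the number of `k ≤ N` with `f(k) ≤ x` by
`O(N x^s)` for `s < 1/λ(w)`. This gives the upper bound as long as `s < 2`. For the lower bound one
uses a short interval at a point `y` at which all `‖w_j y‖` are small.
-/

set_option autoImplicit false

open Filter Topology Asymptotics MeasureTheory

namespace Pool.Agent.Results.MP_047497_nt.GrowthExponent

/-- The Dirichlet series `∑ (a + m₁ w₁ + ⋯ + m_r w_r)^{-s}` over `m ∈ ℕ^r` (with `0 ∈ ℕ`). -/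
noncomputable def barnesSeries (r : ℕ) (a : ℝ) (w : Fin r → ℝ) (s : ℂ) : ℂ :=
  ∑' m : Fin r → ℕ, ((a + ∑ i, (m i : ℝ) * w i : ℝ) : ℂ) ^ (-s)

/-- `Z` is the Barnes multiple zeta-function `ζ_r(·; a, w)`: it is holomorphic on the complex plane
except for possible simple poles at `1, …, r`, and for `Re s > r` it is given by the (summable)
Dirichlet series. -/
structure IsBarnesZeta (r : ℕ) (a : ℝ) (w : Fin r → ℝ) (Z : ℂ → ℂ) : Prop where
  holomorphic : ∀ s : ℂ, (∀ j : ℕ, 1 ≤ j → j ≤ r → s ≠ j) → DifferentiableAt ℂ Z s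
  simple_pole : ∀ j : ℕ, 1 ≤ j → j ≤ r →
    ∃ c : ℂ, Tendsto (fun s : ℂ => (s - j) * Z s) (𝓝[≠] (j : ℂ)) (𝓝 c)
  summable : ∀ s : ℂ, (r : ℝ) < s.re →
    Summable fun m : Fin r → ℕ => ((a + ∑ i, (m i : ℝ) * w i : ℝ) : ℂ) ^ (-s)
  series : ∀ s : ℂ, (r : ℝ) < s.re → Z s = barnesSeries r a w s

/-- The dimension `d` of the `ℚ`-vector space spanned by the weights. -/
noncomputable def weightDim (r : ℕ) (w : Fin r → ℝ) : ℕ :=
  Module.finrank ℚ (Submodule.span ℚ (Set.range w))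

/-- The moment `∫_1^T |Z(σ + i t)|^{2k} dt`. -/
noncomputable def moment (Z : ℂ → ℂ) (k : ℕ) (σ T : ℝ) : ℝ :=
  ∫ t in (1 : ℝ)..T, ‖Z (σ + t * Complex.I)‖ ^ (2 * k)

/-- The bound `I_k(σ, T) = O(T^(β+ε))` for every `ε > 0`. The question is about `β = 1`. -/
def MomentBound (Z : ℂ → ℂ) (k : ℕ) (σ β : ℝ) : Prop :=
  ∀ ε : ℝ, 0 < ε → (fun T : ℝ => moment Z k σ T) =O[atTop] fun T : ℝ => T ^ (β + ε)

/-- The distance from `x` to the nearest integer. -/
noncomputable def distInt (x : ℝ) : ℝ := |x - round x|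

/-- A lower bound of exponent `lam` for simultaneous approximation: there is `c > 0` such that
`max_j ‖w_j y‖ ≥ c y^(-lam)` for all real `y ≥ 1`. -/
def ApproxBelow (r : ℕ) (w : Fin r → ℝ) (lam : ℝ) : Prop :=
  ∃ c : ℝ, 0 < c ∧ ∀ y : ℝ, 1 ≤ y → ∃ j, c * y ^ (-lam) ≤ distInt (w j * y)

theorem exists_zeta (r : ℕ) (a : ℝ) (w : Fin r → ℝ) (ha : 0 < a) (hw : ∀ i, 0 < w i) :
    ∃ Z : ℂ → ℂ, IsBarnesZeta r a w Z := by
  obtain ⟨c, hc⟩ := Pool.Agent.H131R5.BZ.exists_taylor a hw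
  refine ⟨Pool.Agent.H131R5.BZ.FF a w c, ?_, ?_, ?_, ?_⟩
  · exact fun s hs => Pool.Agent.H131R5.BZ.FF_diff ha hw hc hs
  · exact fun j h1 h2 => Pool.Agent.Y930.Bz.FF_pole ha hw hc j h1 h2
  · exact fun s hs => (Pool.Agent.H131R5.BZ.FF_series ha hw hc hs).summable
  · exact fun s hs => (Pool.Agent.H131R5.BZ.FF_series ha hw hc hs).tsum_eq.symm

theorem dim_le (r : ℕ) (w : Fin r → ℝ) : weightDim r w ≤ r := by
  unfold weightDim
  have h := finrank_range_le_card (R := ℚ) (M := ℝ) w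
  rw [Fintype.card_fin] at h
  exact h

/-- Let `w` be positive weights, `a > 0` and let `Z` be the Barnes multiple zeta-function.
(1) Let `σ ≥ 1/2`, `β ≥ 1` and `2(r - σ) ≤ β + 2` (this holds for all `β ≥ 1` if `σ ≥ r - 3/2`). Then
`∫_1^T |ζ_r(σ + it; a, w)|² dt = O(T^(β+ε))` for all `ε > 0` if and only if `ApproxBelow r w lam`
holds for every `lam > 0` with `lam (2(r - σ) - β) > β`, that is, if and only if
`β ≥ 2(r - σ) λ(w)/(1 + λ(w))`.
(2) For all `k ≥ 1`, `σ` and `β ≥ 1`, `σ ≥ 1/2`, the bound `O(T^(β+ε))` for the `2k`-th moment implies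
the same condition.
(3) If `r ≥ 1` and the dimension `d` of the weights is at most `3`, then the bound of the question
for `k = 1` is true for all `σ ≥ r - d/2` if and only if `ApproxBelow r w lam` holds for every `lam > 0`
with `lam (d - 1) > 1`.
(4) If `d = 2` then some quotient `w_j / w_i` is irrational, and for every such quotient the condition
in (1) means that `2(q - 1)(r - σ) ≤ q β` for every `q ≥ 2` such that `w_j / w_i` is a Liouville number
of exponent `q`, that is, `β ≥ 2(r - σ)(1 - 1/μ)` with the irrationality exponent `μ`. -/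
theorem result :
    ∀ (r : ℕ) (a : ℝ) (w : Fin r → ℝ), 0 < a → (∀ i, 0 < w i) →
      (∃ Z : ℂ → ℂ, IsBarnesZeta r a w Z) ∧
      ∀ Z : ℂ → ℂ, IsBarnesZeta r a w Z →
        (∀ σ β : ℝ, 1 / 2 ≤ σ → 1 ≤ β → 2 * ((r : ℝ) - σ) ≤ β + 2 →
          (MomentBound Z 1 σ β ↔
            ∀ lam : ℝ, 0 < lam → β < lam * (2 * (r - σ) - β) → ApproxBelow r w lam)) ∧
        (∀ k : ℕ, 1 ≤ k → ∀ σ β : ℝ, 1 / 2 ≤ σ → 1 ≤ β → MomentBound Z k σ β →
          ∀ lam : ℝ, 0 < lam → β < lam * (2 * (r - σ) - β) → ApproxBelow r w lam) ∧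
        (1 ≤ r → weightDim r w ≤ 3 →
          ((∀ σ : ℝ, (r : ℝ) - (weightDim r w : ℝ) / 2 ≤ σ → MomentBound Z 1 σ 1) ↔
            ∀ lam : ℝ, 0 < lam → 1 < lam * ((weightDim r w : ℝ) - 1) → ApproxBelow r w lam)) ∧
        (weightDim r w = 2 → (∃ i j, Irrational (w j / w i)) ∧
          ∀ i j, Irrational (w j / w i) → ∀ σ β : ℝ, 1 ≤ β →
            ((∀ lam : ℝ, 0 < lam → β < lam * (2 * (r - σ) - β) → ApproxBelow r w lam) ↔
              ∀ q : ℝ, 2 ≤ q → LiouvilleWith q (w j / w i) → 2 * (q - 1) * (r - σ) ≤ q * β)) := by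
  intro r a w ha hw
  refine ⟨exists_zeta r a w ha hw, fun Z hZ => ?_⟩
  obtain ⟨c, hc⟩ := Pool.Agent.H131R5.BZ.exists_taylor a hw
  have hcrit : ∀ σ β : ℝ, 1 / 2 ≤ σ → 1 ≤ β →
      (MomentBound Z 1 σ β ↔ Pool.Agent.T6.H60.BD.CritR w σ β) := by
    intro σ β hσ hβ
    have e1 := Pool.Agent.T6.H60.BD.mom_bigO_iff ha hw hc hZ.holomorphic hZ.series σ hβ
    have e2 := Pool.Agent.T6.H60.BD.mom_iff ha hw hc hσ hβ
    have e3 := Pool.Agent.T6.H60.BD.critR_iff (w := w) (σ := σ) (β := β)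
    exact e1.trans (e2.trans e3.symm)
  have main : ∀ σ β : ℝ, 1 / 2 ≤ σ → 1 ≤ β → 2 * ((r : ℝ) - σ) ≤ β + 2 →
      (MomentBound Z 1 σ β ↔
        ∀ lam : ℝ, 0 < lam → β < lam * (2 * (r - σ) - β) → ApproxBelow r w lam) := fun σ β hσ hβ h =>
    (hcrit σ β hσ hβ).trans (Pool.Agent.T6.H60.BD.crit_sim_iff hw hσ hβ h)
  refine ⟨main, ?_, ?_, ?_⟩
  · intro k hk σ β hσ hβ hM lam hl hlam
    have h1 : MomentBound Z 1 σ β := fun ε hε =>
      Pool.Agent.T6.H60.BD.mom_one_of_mom hZ.holomorphic hk hβ hε (hM ε hε)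
    exact Pool.Agent.T6.H60.BD.sim_of_crit hw hβ ((hcrit σ β hσ hβ).1 h1) hl hlam
  · intro hr hd
    set d : ℝ := (weightDim r w : ℝ) with hdef
    have hd3 : d ≤ 3 := by rw [hdef]; exact_mod_cast hd
    have hdr : d ≤ r := by rw [hdef]; exact_mod_cast dim_le r w
    have hr1 : (1 : ℝ) ≤ r := by exact_mod_cast hr
    have hσ2 : ∀ σ : ℝ, (r : ℝ) - d / 2 ≤ σ → 1 / 2 ≤ σ ∧ 2 * ((r : ℝ) - σ) ≤ 1 + 2 :=
      fun σ hσ => ⟨by linarith, by linarith⟩
    constructor
    · intro h lam hl hlam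
      obtain ⟨h1, h2⟩ := hσ2 (r - d / 2) le_rfl
      refine (main (r - d / 2) 1 h1 le_rfl h2).1 (h _ le_rfl) lam hl ?_
      have h3 : 2 * ((r : ℝ) - (r - d / 2)) - 1 = d - 1 := by ring
      rw [h3]
      exact hlam
    · intro h σ hσ
      obtain ⟨h1, h2⟩ := hσ2 σ hσ
      refine (main σ 1 h1 le_rfl h2).2 fun lam hl hlam => h lam hl ?_
      have h3 : 2 * ((r : ℝ) - σ) - 1 ≤ d - 1 := by linarith
      nlinarith
  · intro hd
    exact ⟨Pool.Agent.T6.H60.BD.exists_pair hw hd, fun i j hij σ β hβ =>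
      Pool.Agent.T6.H60.BD.two_iff hw hd hij hβ⟩

end Pool.Agent.Results.MP_047497_nt.GrowthExponent
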